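import Pool.Agent.N637.SLK.Lin
import Pool.Agent.N73.SLX.CNT

/-!
# SLK-CNT (helper273, after helper73): number of compatible tuples with `k` given Gram matrices
-/

set_option autoImplicit false
set_option linter.unusedVariables false

open scoped Classical

namespace Pool.Agent.N273.SLK

open Finset Filter Topology
open Pool.Agent.N916.GB (ps sx pt)
open Pool.Agent.N637.SLX (IsLk Bf Ind Cor Alt alt gl qf cf hh Ueq Cpt Sol Cmp Srj Aff)
open Pool.Agent.N637.SLK
open Pool.Agent.N73.SLX (z2_mul_self z2_two z2_add_self eqv cardeq card_split cpt_self cpt_symm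
  bf_split cU LU ueq_iff sum_LU)

section

variable {k L : ℕ} {U J : Type} [Fintype U] [Fintype J] [LinearOrder J] {w u : U ⊕ J → ZMod 2}
  {f : Fin L → U ⊕ J → ZMod 2} {c : Fin k → Fin L → ZMod 2} {N : U ⊕ J → U ⊕ J → ZMod 2}

/-- The form of the compatibility condition. -/
lemma cpt_iff {V₀ : ℕ} (h : Stg U J w u f c N V₀) (y z : U ⊕ J → ZMod 2) : Cpt N y z ↔
    (∑ k, u (Sum.inr k) * y (Sum.inr k)) * (∑ k, u (Sum.inr k) * z (Sum.inr k)) +
      ∑ k, u (Sum.inr k) * y (Sum.inr k) * z (Sum.inr k) +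
      (∑ k, (∑ v, z (Sum.inl v) * N (Sum.inl v) (Sum.inr k)) * y (Sum.inr k) +
        ∑ k, (∑ v, y (Sum.inl v) * N (Sum.inl v) (Sum.inr k)) * z (Sum.inr k)) = 0 := by
  have hJ : ∀ k l : J, N (Sum.inr l) (Sum.inr k) + N (Sum.inr k) (Sum.inr l) =
      u (Sum.inr k) * u (Sum.inr l) + if k = l then u (Sum.inr k) else 0 := by
    intro k l
    split_ifs with hkl
    · subst hkl
      rw [z2_add_self, z2_mul_self, z2_add_self]
    · have h1 := h.hN (Sum.inr k) (Sum.inr l) (fun h' => hkl (Sum.inr_injective h'))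
      rw [h.hw, h.hw] at h1
      linear_combination h1
  have h1 : ∑ k, ∑ l, y (Sum.inr k) * z (Sum.inr l) *
      (N (Sum.inr l) (Sum.inr k) + N (Sum.inr k) (Sum.inr l)) =
      (∑ k, u (Sum.inr k) * y (Sum.inr k)) * (∑ k, u (Sum.inr k) * z (Sum.inr k)) +
      ∑ k, u (Sum.inr k) * y (Sum.inr k) * z (Sum.inr k) := by
    rw [Finset.sum_mul_sum, ← Finset.sum_add_distrib]
    refine Finset.sum_congr rfl fun k _ => ?_
    have h2 : ∀ l, y (Sum.inr k) * z (Sum.inr l) *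
        (N (Sum.inr l) (Sum.inr k) + N (Sum.inr k) (Sum.inr l)) =
        u (Sum.inr k) * y (Sum.inr k) * (u (Sum.inr l) * z (Sum.inr l)) +
          if k = l then u (Sum.inr k) * y (Sum.inr k) * z (Sum.inr l) else 0 := by
      intro l
      rw [hJ]
      split_ifs <;> ring
    rw [Finset.sum_congr rfl fun l _ => h2 l, Finset.sum_add_distrib, Finset.sum_ite_eq,
      if_pos (Finset.mem_univ _)]
  have h3 : ∑ k, ∑ l, z (Sum.inr k) * y (Sum.inr l) * N (Sum.inr l) (Sum.inr k) =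
      ∑ k, ∑ l, y (Sum.inr k) * z (Sum.inr l) * N (Sum.inr k) (Sum.inr l) := by
    rw [Finset.sum_comm]
    exact Finset.sum_congr rfl fun k _ => Finset.sum_congr rfl fun l _ => by ring
  have h4 : ∑ k, ∑ l, y (Sum.inr k) * z (Sum.inr l) *
      (N (Sum.inr l) (Sum.inr k) + N (Sum.inr k) (Sum.inr l)) =
      ∑ k, ∑ l, (y (Sum.inr k) * z (Sum.inr l) + z (Sum.inr k) * y (Sum.inr l)) *
        N (Sum.inr l) (Sum.inr k) := by
    simp only [mul_add, add_mul, Finset.sum_add_distrib]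
    rw [h3]
  have h5 : ∑ k, (y (Sum.inr k) * hh N z k + z (Sum.inr k) * hh N y k) =
      ∑ k, ∑ l, (y (Sum.inr k) * z (Sum.inr l) + z (Sum.inr k) * y (Sum.inr l)) *
        N (Sum.inr l) (Sum.inr k) +
      (∑ k, (∑ v, z (Sum.inl v) * N (Sum.inl v) (Sum.inr k)) * y (Sum.inr k) +
        ∑ k, (∑ v, y (Sum.inl v) * N (Sum.inl v) (Sum.inr k)) * z (Sum.inr k)) := by
    rw [← Finset.sum_add_distrib, ← Finset.sum_add_distrib]
    refine Finset.sum_congr rfl fun k _ => ?_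
    have e1 : ∀ x : U ⊕ J → ZMod 2, hh N x k =
        ∑ v, x (Sum.inl v) * N (Sum.inl v) (Sum.inr k) +
        x (Sum.inr k) * ∑ v, N (Sum.inr k) (Sum.inl v) +
        ∑ l, x (Sum.inr l) * N (Sum.inr l) (Sum.inr k) +
        x (Sum.inr k) * ∑ l, N (Sum.inr k) (Sum.inr l) := by
      intro x
      rw [hh, Fintype.sum_sum_type, Finset.sum_add_distrib, Finset.sum_add_distrib,
        Finset.mul_sum, Finset.mul_sum]
      ring
    have e2 : ∑ l, (y (Sum.inr k) * z (Sum.inr l) + z (Sum.inr k) * y (Sum.inr l)) *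
        N (Sum.inr l) (Sum.inr k) =
        y (Sum.inr k) * ∑ l, z (Sum.inr l) * N (Sum.inr l) (Sum.inr k) +
        z (Sum.inr k) * ∑ l, y (Sum.inr l) * N (Sum.inr l) (Sum.inr k) := by
      rw [Finset.mul_sum, Finset.mul_sum, ← Finset.sum_add_distrib]
      exact Finset.sum_congr rfl fun l _ => by ring
    rw [e1, e1, e2]
    linear_combination (y (Sum.inr k) * z (Sum.inr k) * ∑ v, N (Sum.inr k) (Sum.inl v) +
      y (Sum.inr k) * z (Sum.inr k) * ∑ l, N (Sum.inr k) (Sum.inr l)) * z2_two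
  rw [Cpt, h5, ← h4, h1]

/-- The linear forms at the small primes are independent. -/
lemma indep {V₀ : ℕ} (h : Stg U J w u f c N V₀) (b : U → ZMod 2)
    (hb : ∀ k, ∑ v, b v * N (Sum.inr k) (Sum.inl v) = 0) (v : U) : b v = 0 := by
  have h1 : ∀ k v, N (Sum.inr k) (Sum.inl v) =
      w (Sum.inl v) * N (Sum.inl v) (Sum.inr k) + u (Sum.inl v) * u (Sum.inr k) := by
    intro k v
    have h2 := h.hN (Sum.inl v) (Sum.inr k) (by simp)
    rw [h.hw, one_mul] at h2
    linear_combination h2 - (w (Sum.inl v) * N (Sum.inl v) (Sum.inr k)) * z2_two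
  have h3 : ¬ ((∃ v, b v * w (Sum.inl v) ≠ 0) ∨ ∑ v, b v * u (Sum.inl v) ≠ 0) := by
    intro h4
    obtain ⟨k, hk⟩ := h.nd (fun v => b v * w (Sum.inl v)) (∑ v, b v * u (Sum.inl v)) h4
    apply hk
    rw [← hb k, Finset.sum_mul, ← Finset.sum_add_distrib]
    refine Finset.sum_congr rfl fun v _ => ?_
    rw [h1]
    ring
  push Not at h3
  obtain ⟨h4, h5⟩ := h3
  by_contra hv
  have hw0 : ∀ v, b v ≠ 0 → w (Sum.inl v) = 0 := fun v hv =>
    (mul_eq_zero.1 (h4 v)).resolve_left hv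
  obtain ⟨hu1, hun⟩ := h.hv v (hw0 v hv)
  rw [Finset.sum_eq_single v, hu1, mul_one] at h5
  · exact hv h5
  · intro v' _ hne
    by_cases hb' : b v' = 0
    · rw [hb', zero_mul]
    · exact absurd (hun v' (hw0 v' hb')).symm hne
  · intro h6
    exact absurd (Finset.mem_univ _) h6

/-- The conditions of `S_CNT` for given values at the small primes. -/
def PU (N : U ⊕ J → U ⊕ J → ZMod 2) (f : Fin L → U ⊕ J → ZMod 2) (c : Fin k → Fin L → ZMod 2)
    {n : ℕ} (β : Fin k → Fin n → Fin n → ZMod 2)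
    (yU : Fin n → U → ZMod 2) (yJ : Fin n → J → ZMod 2) : Prop :=
  (∀ a, Ueq N (eqv n U J (yU, yJ) a)) ∧
    (∀ a b, Cpt N (eqv n U J (yU, yJ) a) (eqv n U J (yU, yJ) b)) ∧
    ∀ i a b, a < b → Fm f (c i) (eqv n U J (yU, yJ) a) (eqv n U J (yU, yJ) b) = β i a b

/-- The conditions of `S_QC`. -/
def QU (n : ℕ) (g : U → J → ZMod 2)
    (d : Fin n → U → ZMod 2) (u : J → ZMod 2) (f : Fin L → J → ZMod 2)
    (c : Fin k → Fin L → ZMod 2) (μ : Fin n → ZMod 2) (κ : Fin L → Fin n → ZMod 2)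
    (L1 : Fin n → Fin n → Fin n → J → ZMod 2) (L2 : Fin k → Fin n → Fin n → Fin n → J → ZMod 2)
    (α : Fin n → Fin n → ZMod 2) (β : Fin k → Fin n → Fin n → ZMod 2)
    (y : Fin n → J → ZMod 2) : Prop :=
  (∀ a v, ∑ k, g v k * y a k = d a v) ∧
    (∀ a b, a < b → (μ a + ∑ k, u k * y a k) * (μ b + ∑ k, u k * y b k) +
      ∑ k, u k * y a k * y b k + ∑ x, ∑ k, L1 a b x k * y x k = α a b) ∧
    (∀ i a b, a < b → ∑ l, c i l * ((κ l a + ∑ k, f l k * y a k) * (κ l b + ∑ k, f l k * y b k) +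
      ∑ k, f l k * y a k * y b k) + ∑ x, ∑ k, L2 i a b x k * y x k = β i a b)

lemma PU_iff {V₀ : ℕ} (h : Stg U J w u f c N V₀) {n : ℕ} (β : Fin k → Fin n → Fin n → ZMod 2)
    (yU : Fin n → U → ZMod 2) (yJ : Fin n → J → ZMod 2) : PU N f c β yU yJ ↔
    QU n (fun v k => N (Sum.inr k) (Sum.inl v)) (cU N yU)
    (fun k => u (Sum.inr k)) (fun l k => f l (Sum.inr k)) c (fun _ => 0)
    (fun l a => ∑ v, f l (Sum.inl v) * yU a v) (LU N yU)
    (fun _ _ _ _ _ => 0) (fun _ _ => 0)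
    (fun i a b => β i a b + ∑ l, c i l * ∑ v, f l (Sum.inl v) * yU a v * yU b v) yJ := by
  refine and_congr (forall_congr' fun a => ueq_iff yU yJ a) (and_congr ?_ ?_)
  · have h2 : (∀ a b, Cpt N (eqv n U J (yU, yJ) a) (eqv n U J (yU, yJ) b)) ↔
        ∀ a b, a < b → Cpt N (eqv n U J (yU, yJ) a) (eqv n U J (yU, yJ) b) := by
      constructor
      · intro h3 a b _
        exact h3 a b
      · intro h3 a b
        rcases lt_trichotomy a b with h4 | h4 | h4
        · exact h3 a b h4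
        · rw [h4]
          exact cpt_self _
        · exact cpt_symm (h3 b a h4)
    rw [h2]
    refine forall_congr' fun a => forall_congr' fun b => forall_congr' fun hab => ?_
    rw [cpt_iff h, sum_LU, zero_add, zero_add]
    exact Iff.rfl
  · refine forall_congr' fun i => forall_congr' fun a => forall_congr' fun b =>
      forall_congr' fun hab => ?_
    have h3 : ∑ x : Fin n, ∑ k : J, (0 : ZMod 2) * yJ x k = 0 := by simp
    have h4 : ∀ l, Bf (f l) (eqv n U J (yU, yJ) a) (eqv n U J (yU, yJ) b) =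
        ((∑ v, f l (Sum.inl v) * yU a v + ∑ k, f l (Sum.inr k) * yJ a k) *
        (∑ v, f l (Sum.inl v) * yU b v + ∑ k, f l (Sum.inr k) * yJ b k) +
        ∑ k, f l (Sum.inr k) * yJ a k * yJ b k) +
        ∑ v, f l (Sum.inl v) * yU a v * yU b v := fun l => bf_split _ _
    have h5 : Fm f (c i) (eqv n U J (yU, yJ) a) (eqv n U J (yU, yJ) b) =
        ∑ l, c i l * ((∑ v, f l (Sum.inl v) * yU a v + ∑ k, f l (Sum.inr k) * yJ a k) *
        (∑ v, f l (Sum.inl v) * yU b v + ∑ k, f l (Sum.inr k) * yJ b k) +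
        ∑ k, f l (Sum.inr k) * yJ a k * yJ b k) +
        ∑ l, c i l * ∑ v, f l (Sum.inl v) * yU a v * yU b v := by
      rw [Fm, ← Finset.sum_add_distrib]
      refine Finset.sum_congr rfl fun l _ => ?_
      rw [h4, mul_add]
    rw [h5, h3, add_zero]
    beta_reduce
    generalize ∑ l, c i l * ((∑ v, f l (Sum.inl v) * yU a v + ∑ k, f l (Sum.inr k) * yJ a k) *
        (∑ v, f l (Sum.inl v) * yU b v + ∑ k, f l (Sum.inr k) * yJ b k) +
        ∑ k, f l (Sum.inr k) * yJ a k * yJ b k) = A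
    generalize ∑ l, c i l * ∑ v, f l (Sum.inl v) * yU a v * yU b v = B
    generalize β i a b = D
    revert A B D
    decide

/-- The count for given values at the small primes. -/
lemma fibre (hQC : S_QC) {V₀ : ℕ} (h : Stg U J w u f c N V₀) {n : ℕ}
    (β : Fin k → Fin n → Fin n → ZMod 2) (yU : Fin n → U → ZMod 2) :
    |((univ.filter fun yJ : Fin n → J → ZMod 2 => PU N f c β yU yJ).card : ℝ) -
      2 ^ (n * Fintype.card J) /
        (2 ^ (n * Fintype.card U) * 2 ^ ((k + 1) * (n * (n - 1) / 2)))| ≤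
    2 ^ (n * Fintype.card J) * 2 ^ ((L + 1) * n) / 2 ^ (V₀ * (Fintype.card U + 1)) := by
  have h1 := hQC n (V₀ * (Fintype.card U + 1)) k L J U (fun v k => N (Sum.inr k) (Sum.inl v))
    (cU N yU) (fun k => u (Sum.inr k)) (fun l k => f l (Sum.inr k)) c (fun _ => 0)
    (fun l a => ∑ v, f l (Sum.inl v) * yU a v) (LU N yU)
    (fun _ _ _ _ _ => 0) (fun _ _ => 0)
    (fun i a b => β i a b + ∑ l, c i l * ∑ v, f l (Sum.inl v) * yU a v * yU b v)
    (indep h) h.cc
  refine le_of_eq_of_le ?_ h1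
  congr 3
  exact cardeq (PU_iff h β yU)

end

theorem t_CNT : S_QC → S_CNT := by
  intro hQC n k L ε hε
  obtain ⟨s, hs⟩ : ∃ s : ℕ, (2 : ℝ) ^ ((L + 1) * n) / 2 ^ s ≤ ε := by
    obtain ⟨s, hs⟩ := pow_unbounded_of_one_lt ((2 : ℝ) ^ ((L + 1) * n) / ε) (one_lt_two)
    refine ⟨s, ?_⟩
    rw [div_le_iff₀ (by positivity)]
    rw [div_lt_iff₀ hε] at hs
    linarith
  refine ⟨n + s, fun U J _ _ _ w u f c N h β => ?_⟩
  refine le_of_eq_of_le (congrArg (fun x : ℕ => |(x : ℝ) - 2 ^ (n * Fintype.card J) /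
    2 ^ ((k + 1) * (n * (n - 1) / 2))|) (?_ : _ = ∑ yU : Fin n → U → ZMod 2,
      (univ.filter fun yJ : Fin n → J → ZMod 2 => PU N f c β yU yJ).card)) ?_
  · rw [card_split]
    exact Finset.sum_congr rfl fun yU _ => cardeq fun yJ => Iff.rfl
  rw [Nat.cast_sum]
  have h1 : ((2 : ℝ) ^ (n * Fintype.card J) / 2 ^ ((k + 1) * (n * (n - 1) / 2))) =
      ∑ _yU : Fin n → U → ZMod 2, (2 : ℝ) ^ (n * Fintype.card J) /
        (2 ^ (n * Fintype.card U) * 2 ^ ((k + 1) * (n * (n - 1) / 2))) := by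
    rw [Finset.sum_const, Finset.card_univ, Fintype.card_fun, Fintype.card_fun, Fintype.card_fin,
      ZMod.card, ← pow_mul, nsmul_eq_mul, mul_comm (Fintype.card U) n]
    push_cast
    field_simp
  rw [h1, ← Finset.sum_sub_distrib]
  refine (Finset.abs_sum_le_sum_abs _ _).trans ?_
  refine (Finset.sum_le_sum fun yU _ => fibre hQC h β yU).trans ?_
  rw [Finset.sum_const, Finset.card_univ, Fintype.card_fun, Fintype.card_fun, Fintype.card_fin,
    ZMod.card, ← pow_mul, nsmul_eq_mul, mul_comm (Fintype.card U) n]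
  push_cast
  have h2 : (2 : ℝ) ^ (n * Fintype.card U + s) ≤ 2 ^ ((n + s) * (Fintype.card U + 1)) := by
    refine pow_le_pow_right₀ one_le_two ?_
    nlinarith [Nat.zero_le (s * Fintype.card U)]
  have h3 : (2 : ℝ) ^ (n * Fintype.card U) *
      (2 ^ (n * Fintype.card J) * 2 ^ ((L + 1) * n) / 2 ^ ((n + s) * (Fintype.card U + 1))) ≤
      (2 : ℝ) ^ (n * Fintype.card U) *
      (2 ^ (n * Fintype.card J) * 2 ^ ((L + 1) * n) / 2 ^ (n * Fintype.card U + s)) := by
    gcongr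
  refine h3.trans ?_
  have h4 : (2 : ℝ) ^ (n * Fintype.card U) *
      (2 ^ (n * Fintype.card J) * 2 ^ ((L + 1) * n) / 2 ^ (n * Fintype.card U + s)) =
      2 ^ ((L + 1) * n) / 2 ^ s * 2 ^ (n * Fintype.card J) := by
    rw [pow_add]
    field_simp
  rw [h4]
  gcongr

end Pool.Agent.N273.SLK
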